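import Mathlib

set_option autoImplicit false

namespace Pool.Agent.Results.MP_308823_co.NotGamma

open Finset PowerSeries

/-- Number of lattice points in the `q`-th dilate of the cyclic block polytope. -/
noncomputable def L (a m q : ℕ) : ℕ :=
  Nat.card {x : ZMod m → Fin a → ℤ //
    (∀ i j, 0 ≤ x i j) ∧ ∀ i, ∑ j, x i j + ∑ j, x (i + 1) j ≤ q}

/-- The rational Ehrhart numerator, as a power series. -/
noncomputable def h (a m : ℕ) : ℚ⟦X⟧ :=
  (1 - X ^ 2) ^ (a * m + 1) * PowerSeries.mk fun q => (L a m q : ℚ)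

lemma L_eq (q : ℕ) : L 1 3 q = ((Fintype.piFinset fun _ : ZMod 3 => Fintype.piFinset
    fun _ : Fin 1 => Icc (0 : ℤ) q).filter fun x : ZMod 3 → Fin 1 → ℤ =>
      ∀ i, x i 0 + x (i + 1) 0 ≤ (q : ℤ)).card := by
  refine Nat.subtype_card _ fun x => ?_
  simp only [mem_filter, Fintype.mem_piFinset, mem_Icc, univ_unique, sum_singleton,
    Fin.default_eq_zero, Fin.forall_fin_one]
  exact ⟨fun h => ⟨fun i => (h.1 i).1, h.2⟩, fun h => ⟨fun i => ⟨h.1 i, by
    have := h.2 i; have := h.1 (i + 1); omega⟩, h.2⟩⟩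

lemma vals : L 1 3 0 = 1 ∧ L 1 3 1 = 4 ∧ L 1 3 3 = 23 ∧ L 1 3 5 = 69 := by
  simp only [L_eq]; decide +kernel

/-- For `a = 1`, `m = 3` the numerator has no expansion with nonnegative gamma-coefficients. -/
theorem result : ∃ a m : ℕ, 1 ≤ a ∧ 3 ≤ m ∧ Odd m ∧ ¬ ∃ (N : ℕ) (g : ℕ → ℚ), (∀ j, 0 ≤ g j) ∧
    h a m = ∑ j ∈ range (N / 2 + 1), C (g j) * X ^ j * (1 + X) ^ (N - 2 * j) := by
  refine ⟨1, 3, le_rfl, le_rfl, by decide, ?_⟩
  rintro ⟨N, g, hg, e⟩
  obtain ⟨v0, v1, v3, v5⟩ := vals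
  have e1 : h 1 3 = (1 + X ^ 2 * C (-4) + X ^ 4 * C 6 + X ^ 6 * C (-4) + X ^ 8) *
      PowerSeries.mk fun q => (L 1 3 q : ℚ) := by
    simp only [h, map_neg, map_ofNat]; ring
  have cb : ∀ n k : ℕ, coeff k ((1 + X : ℚ⟦X⟧) ^ n) = n.choose k := by
    intro n k
    have := Polynomial.coeff_one_add_X_pow ℚ n k
    rw [← this, ← Polynomial.coeff_coe]; simp
  have cf : ∀ k, coeff k (h 1 3) = ∑ j ∈ range (N / 2 + 1),
      if j ≤ k then g j * ((N - 2 * j).choose (k - j) : ℚ) else 0 := by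
    intro k
    rw [e, map_sum]
    refine sum_congr rfl fun j _ => ?_
    rw [mul_assoc, coeff_C_mul, coeff_X_pow_mul', cb]; simp
  have c0 := cf 0
  have c1 := cf 1
  have c5 := cf 5
  rw [e1] at c0 c1 c5
  simp only [add_mul, one_mul, mul_assoc, map_add, coeff_X_pow_mul', coeff_C_mul, coeff_mk] at c0 c1 c5
  norm_num [v0, v1, v3, v5] at c0 c1 c5
  have hN : 5 ≤ N := by
    by_contra hc
    rw [sum_eq_zero] at c5
    · exact one_ne_zero c5
    · intro j hj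
      have := mem_range.1 hj
      rw [Nat.choose_eq_zero_of_lt (by omega)]; simp
  obtain ⟨t, ht⟩ : ∃ t, N / 2 + 1 = t + 1 + 1 := ⟨N / 2 - 1, by omega⟩
  rw [ht, sum_range_succ', sum_range_succ'] at c1
  simp [← c0] at c1
  have : (5 : ℚ) ≤ N := by exact_mod_cast hN
  linarith [hg 1]

end Pool.Agent.Results.MP_308823_co.NotGamma
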